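import Pool.Agent.P.MP_2c43e6_an.Defs

-- part Pool.Agent.P.MP_2c43e6_an.Geom
section

namespace Pool.Agent.P.MP_2c43e6_an

open MeasureTheory Set
open scoped ENNReal

variable {n : ℕ}

/-- The cube of side `2 * 2^k` centred at the origin. -/
def box (n k : ℕ) : Set (Fin n → ℝ) :=
  Set.Icc (fun _ => -(2:ℝ)^k) (fun _ => -(2:ℝ)^k + 2 * 2^k)

lemma isCube_box (k : ℕ) : IsCube (box n k) :=
  ⟨fun _ => -(2:ℝ)^k, 2 * 2^k, by positivity, rfl⟩

lemma mem_box {k : ℕ} {x : Fin n → ℝ} : x ∈ box n k ↔ ‖x‖ ≤ (2:ℝ)^k := by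
  rw [pi_norm_le_iff_of_nonneg (by positivity)]
  simp only [box, Set.mem_Icc, Pi.le_def, Real.norm_eq_abs, abs_le]
  constructor
  · rintro ⟨h1, h2⟩ i
    exact ⟨h1 i, by have := h2 i; linarith⟩
  · intro h
    exact ⟨fun i => (h i).1, fun i => by have := (h i).2; linarith⟩

lemma measurableSet_box (k : ℕ) : MeasurableSet (box n k) := measurableSet_Icc

lemma volume_cube (a : Fin n → ℝ) (l : ℝ) :
    volume (Set.Icc a (fun i => a i + l)) = ENNReal.ofReal l ^ n := by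
  rw [Real.volume_Icc_pi]
  simp

lemma volume_box (k : ℕ) : volume (box n k) = (2:ℝ≥0∞)^n * 2^(n*k) := by
  unfold box
  rw [volume_cube (fun _ => -(2:ℝ)^k) (2 * 2^k)]
  rw [ENNReal.ofReal_mul (by norm_num), ENNReal.ofReal_pow (by norm_num)]
  simp only [ENNReal.ofReal_ofNat]
  rw [mul_pow, ← pow_mul, mul_comm k n]

lemma IsCube.measurableSet {Q : Set (Fin n → ℝ)} (h : IsCube Q) : MeasurableSet Q := by
  obtain ⟨a, l, -, rfl⟩ := h
  exact measurableSet_Icc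

lemma IsCube.volume_ne_zero {Q : Set (Fin n → ℝ)} (h : IsCube Q) : volume Q ≠ 0 := by
  obtain ⟨a, l, hl, rfl⟩ := h
  rw [volume_cube]
  exact pow_ne_zero _ (by simpa using hl)

lemma IsCube.volume_ne_top {Q : Set (Fin n → ℝ)} (h : IsCube Q) : volume Q ≠ ⊤ := by
  obtain ⟨a, l, hl, rfl⟩ := h
  rw [volume_cube]
  exact ENNReal.pow_ne_top ENNReal.ofReal_ne_top

lemma norm_sub_le_of_mem_cube {a : Fin n → ℝ} {l : ℝ} (hl : 0 < l) {x y : Fin n → ℝ}
    (hx : x ∈ Set.Icc a (fun i => a i + l)) (hy : y ∈ Set.Icc a (fun i => a i + l)) :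
    ‖x - y‖ ≤ l := by
  rw [pi_norm_le_iff_of_nonneg hl.le]
  intro i
  have h1 := hx.1 i
  have h2 := hx.2 i
  have h3 := hy.1 i
  have h4 := hy.2 i
  simp only at h2 h4
  rw [Pi.sub_apply, Real.norm_eq_abs, abs_le]
  constructor <;> linarith

lemma exists_level (x : Fin n → ℝ) : ∃ k : ℕ, ‖x‖ ≤ (2:ℝ)^k := by
  obtain ⟨k, hk⟩ := pow_unbounded_of_one_lt ‖x‖ (by norm_num : (1:ℝ) < 2)
  exact ⟨k, hk.le⟩

open Classical in
/-- The dyadic level of a point. -/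
noncomputable def lev (x : Fin n → ℝ) : ℕ := Nat.find (exists_level x)

lemma lev_le_iff {x : Fin n → ℝ} {k : ℕ} : lev x ≤ k ↔ ‖x‖ ≤ (2:ℝ)^k := by
  classical
  unfold lev
  rw [Nat.find_le_iff]
  constructor
  · rintro ⟨m, hm, h⟩
    exact h.trans (pow_le_pow_right₀ (by norm_num) hm)
  · intro h
    exact ⟨k, le_rfl, h⟩

lemma lev_le_iff_mem {x : Fin n → ℝ} {k : ℕ} : lev x ≤ k ↔ x ∈ box n k := by
  rw [lev_le_iff, mem_box]

lemma measurable_lev : Measurable (lev : (Fin n → ℝ) → ℕ) := by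
  apply measurable_of_Iic
  intro k
  have : (lev : (Fin n → ℝ) → ℕ) ⁻¹' Iic k = box n k := by
    ext x
    simp [lev_le_iff_mem]
  rw [this]
  exact measurableSet_box k

lemma measurable_comp_lev (g : ℕ → ℝ≥0∞) : Measurable (fun x : Fin n → ℝ => g (lev x)) :=
  (measurable_from_nat (f := g)).comp measurable_lev

/-- In a small cube the level drops by at most one. -/
lemma lev_le_succ_of_small {a : Fin n → ℝ} {l : ℝ} (hl : 0 < l) {x y : Fin n → ℝ}
    (hx : x ∈ Set.Icc a (fun i => a i + l)) (hy : y ∈ Set.Icc a (fun i => a i + l))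
    (hsmall : l ≤ (2:ℝ)^(lev x) / 4) : lev x ≤ lev y + 1 := by
  by_contra hcon
  push Not at hcon
  obtain ⟨d, hd⟩ : ∃ d, lev x = d + 2 := ⟨lev x - 2, by omega⟩
  have h1 : ‖y‖ ≤ (2:ℝ)^d := lev_le_iff.1 (by omega)
  have h2 : ¬ ‖x‖ ≤ (2:ℝ)^(d+1) := by
    rw [← lev_le_iff]; omega
  have h3 := norm_sub_le_of_mem_cube hl hx hy
  have h4 : ‖x‖ ≤ ‖x - y‖ + ‖y‖ := by
    simpa using norm_add_le (x - y) y
  rw [hd] at hsmall
  apply h2
  have : (2:ℝ)^(d+2) / 4 = 2^d := by ring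
  rw [this] at hsmall
  have : (2:ℝ)^(d+1) = 2^d + 2^d := by ring
  linarith

/-- A big cube has big volume. -/
lemma volume_big {a : Fin n → ℝ} {l : ℝ} {k : ℕ} (hbig : (2:ℝ)^k / 4 < l) :
    (2:ℝ≥0∞)^(n*k) ≤ 4^n * volume (Set.Icc a (fun i => a i + l)) := by
  rw [volume_cube, ← mul_pow, mul_comm n k, pow_mul]
  gcongr
  have : (2:ℝ≥0∞)^k = ENNReal.ofReal (2^k) := by
    rw [ENNReal.ofReal_pow (by norm_num)]; simp
  rw [this]
  have h4 : (4:ℝ≥0∞) = ENNReal.ofReal 4 := by simp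
  rw [h4, ← ENNReal.ofReal_mul (by norm_num)]
  apply ENNReal.ofReal_le_ofReal
  linarith

/-- Upper bound for the integral of a function of the level over a box. -/
lemma lintegral_box_le (g : ℕ → ℝ≥0∞) (j : ℕ) :
    ∫⁻ x in box n j, g (lev x) ≤ ∑ k ∈ Finset.range (j+1), g k * (2^n * 2^(n*k)) := by
  have h1 : ∀ x : Fin n → ℝ, (box n j).indicator (fun x => g (lev x)) x ≤
      ∑ k ∈ Finset.range (j+1), (box n k).indicator (fun _ => g k) x := by
    intro x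
    by_cases hx : x ∈ box n j
    · rw [indicator_of_mem hx]
      have hl : lev x ∈ Finset.range (j+1) := by
        rw [Finset.mem_range, Nat.lt_succ_iff]; exact lev_le_iff_mem.2 hx
      refine le_trans ?_ (Finset.single_le_sum (f := fun k => (box n k).indicator (fun _ => g k) x)
        (fun _ _ => bot_le) hl)
      rw [indicator_of_mem (lev_le_iff_mem.1 le_rfl)]
    · rw [indicator_of_notMem hx]; exact bot_le
  rw [← lintegral_indicator (measurableSet_box j)]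
  refine (lintegral_mono h1).trans ?_
  rw [lintegral_finsetSum]
  · apply le_of_eq
    apply Finset.sum_congr rfl
    intro k _
    rw [lintegral_indicator_const (measurableSet_box k), volume_box]
  · intro k _
    exact measurable_const.indicator (measurableSet_box k)

lemma volume_shell (hn : 1 ≤ n) (k : ℕ) (hk : 1 ≤ k) :
    (2:ℝ≥0∞)^(n*k) ≤ volume {x : Fin n → ℝ | lev x = k} := by
  obtain ⟨d, rfl⟩ : ∃ d, k = d + 1 := ⟨k - 1, by omega⟩
  have h1 : box n (d+1) ⊆ box n d ∪ {x : Fin n → ℝ | lev x = d + 1} := by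
    intro x hx
    rw [← lev_le_iff_mem] at hx
    by_cases h : lev x ≤ d
    · left; exact lev_le_iff_mem.1 h
    · right; simp only [mem_ofPred_eq]; omega
  have h2 := (measure_mono (μ := volume) h1).trans (measure_union_le _ _)
  rw [volume_box, volume_box] at h2
  have h3 : (2:ℝ≥0∞)^n * 2^(n*d) = 2^(n*(d+1)) := by rw [← pow_add]; congr 1; ring
  rw [h3] at h2
  have h4 : (2:ℝ≥0∞)^(n*(d+1)) + 2^(n*(d+1)) ≤ 2^n * 2^(n*(d+1)) := by
    rw [← two_mul]
    gcongr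
    calc (2:ℝ≥0∞) = 2^1 := by simp
      _ ≤ 2^n := pow_le_pow_right₀ (by norm_num) hn
  have h5 := h4.trans h2
  exact (ENNReal.add_le_add_iff_left (ENNReal.pow_ne_top (by simp))).1 h5

/-- Lower bound for the integral of a function of the level. -/
lemma le_lintegral_lev (hn : 1 ≤ n) (g : ℕ → ℝ≥0∞) (s : Finset ℕ) (hs : ∀ k ∈ s, 1 ≤ k) :
    ∑ k ∈ s, g k * 2^(n*k) ≤ ∫⁻ x : Fin n → ℝ, g (lev x) := by
  have hm : ∀ k : ℕ, MeasurableSet {x : Fin n → ℝ | lev x = k} := fun k =>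
    measurable_lev (measurableSet_singleton k)
  have h1 : ∀ x : Fin n → ℝ,
      ∑ k ∈ s, {x : Fin n → ℝ | lev x = k}.indicator (fun _ => g k) x ≤ g (lev x) := by
    intro x
    classical
    have : ∀ k ∈ s, {x : Fin n → ℝ | lev x = k}.indicator (fun _ => g k) x =
        if lev x = k then g k else 0 := by
      intro k _
      simp [Set.indicator_apply]
    rw [Finset.sum_congr rfl this, Finset.sum_ite_eq]
    split_ifs <;> simp
  refine le_trans ?_ (lintegral_mono h1)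
  rw [lintegral_finsetSum]
  · apply Finset.sum_le_sum
    intro k hk
    rw [lintegral_indicator_const (hm k)]
    gcongr
    exact volume_shell hn k (hs k hk)
  · intro k _
    exact measurable_const.indicator (hm k)

/-- Every cube has a point of maximal level. -/
lemma exists_max_lev {Q : Set (Fin n → ℝ)} (h : IsCube Q) :
    ∃ x₀ ∈ Q, ∀ y ∈ Q, lev y ≤ lev x₀ := by
  obtain ⟨a, l, hl, rfl⟩ := h
  have ha : a ∈ Set.Icc a (fun i => a i + l) := ⟨le_rfl, fun i => by simp [hl.le]⟩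
  have hc : IsCompact (Set.Icc a (fun i => a i + l)) := isCompact_Icc
  obtain ⟨x₀, hx₀, hmax⟩ := hc.exists_isMaxOn ⟨a, ha⟩ (continuous_norm.continuousOn)
  refine ⟨x₀, hx₀, fun y hy => ?_⟩
  rw [lev_le_iff]
  exact (hmax hy).trans (lev_le_iff.1 le_rfl)

end Pool.Agent.P.MP_2c43e6_an
end

-- part Pool.Agent.P.MP_2c43e6_an.Upper
section

namespace Pool.Agent.P.MP_2c43e6_an

open MeasureTheory Set
open scoped ENNReal

variable {n : ℕ}

lemma avg_le_of_forall_le {f : (Fin n → ℝ) → ℝ≥0∞} {Q : Set (Fin n → ℝ)} (hQ : IsCube Q)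
    {c : ℝ≥0∞} (h : ∀ y ∈ Q, f y ≤ c) : avg f Q ≤ c := by
  unfold avg
  apply ENNReal.div_le_of_le_mul
  calc ∫⁻ x in Q, f x ≤ ∫⁻ _ in Q, c := setLIntegral_mono' hQ.measurableSet h
    _ = c * volume Q := by rw [setLIntegral_const]

lemma avg_mono {f g : (Fin n → ℝ) → ℝ≥0∞} (Q : Set (Fin n → ℝ)) (h : ∀ y, f y ≤ g y) :
    avg f Q ≤ avg g Q := by
  unfold avg
  gcongr with y
  exact h y

lemma T_ne_zero (m : ℕ) : (2:ℝ≥0∞)^m ≠ 0 := pow_ne_zero _ (by norm_num)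
lemma T_ne_top (m : ℕ) : (2:ℝ≥0∞)^m ≠ ⊤ := ENNReal.pow_ne_top (by simp)

/-- Hypotheses on the level sequences. -/
structure Good (n : ℕ) (p : ℝ) (s u : ℕ → ℝ≥0∞) (D S W : ℝ≥0∞) (K : ℕ) : Prop where
  hsu : ∀ k, s k ^ (p - 1) * u k = 1
  h1 : ∀ j k, k ≤ j + 1 → s j ≤ D * s k
  h2 : ∑ k ∈ Finset.range (K + 1), s k * 2^(n*k) ≤ S
  h3 : ∀ k, 1 ≤ s k * 2^(n*K)
  h4 : ∀ k, u k * ((k:ℝ≥0∞) + 1) ≤ W * ((2:ℝ≥0∞)^(n*k)) ^ (p - 1)
  h5 : (K:ℝ≥0∞) + 1 ≤ W

section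
variable {p : ℝ} {s u : ℕ → ℝ≥0∞} {D S W : ℝ≥0∞} {K : ℕ}

lemma Good.u_le (h : Good n p s u D S W K) (hp : 1 < p) {j k : ℕ} (hjk : j ≤ k) :
    u j ≤ D ^ (p - 1) * u k := by
  have hp' : 0 ≤ p - 1 := by linarith
  calc u j = (s k ^ (p-1) * u k) * u j := by rw [h.hsu, one_mul]
    _ ≤ ((D * s j) ^ (p-1) * u k) * u j := by
        gcongr
        exact h.h1 k j (by omega)
    _ = D ^ (p-1) * u k * (s j ^ (p-1) * u j) := by
        rw [ENNReal.mul_rpow_of_nonneg _ _ hp']; ring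
    _ = D ^ (p-1) * u k := by rw [h.hsu, mul_one]

lemma Good.u_le_top (h : Good n p s u D S W K) (hp : 1 < p) (k : ℕ) :
    u k ≤ ((2:ℝ≥0∞)^(n*K)) ^ (p - 1) := by
  have hp' : 0 ≤ p - 1 := by linarith
  calc u k = (1:ℝ≥0∞) ^ (p-1) * u k := by simp
    _ ≤ (s k * 2^(n*K)) ^ (p-1) * u k := by
        gcongr
        exact h.h3 k
    _ = ((2:ℝ≥0∞)^(n*K)) ^ (p - 1) * (s k ^ (p-1) * u k) := by
        rw [ENNReal.mul_rpow_of_nonneg _ _ hp']; ring
    _ = _ := by rw [h.hsu, mul_one]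

lemma Good.sigma_box (h : Good n p s u D S W K) {j : ℕ} (hj : j ≤ K) :
    ∫⁻ x in box n j, s (lev x) ≤ 2^n * S := by
  refine (lintegral_box_le s j).trans ?_
  calc ∑ k ∈ Finset.range (j+1), s k * (2^n * 2^(n*k))
      ≤ ∑ k ∈ Finset.range (K+1), s k * (2^n * 2^(n*k)) :=
        Finset.sum_le_sum_of_subset (Finset.range_mono (by omega))
    _ = 2^n * ∑ k ∈ Finset.range (K+1), s k * 2^(n*k) := by
        rw [Finset.mul_sum]; apply Finset.sum_congr rfl; intro k _; ring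
    _ ≤ 2^n * S := by gcongr; exact h.h2

lemma Good.sK_le (h : Good n p s u D S W K) : s K * 2^(n*K) ≤ S := by
  refine le_trans ?_ h.h2
  exact Finset.single_le_sum (f := fun k => s k * 2^(n*k)) (fun _ _ => bot_le)
    (Finset.self_mem_range_succ K)

/-- Averages of `σ` over big far cubes. -/
lemma Good.avg_far (h : Good n p s u D S W K) {a : Fin n → ℝ} {l : ℝ} (hl : 0 < l) {k : ℕ}
    (hk : K ≤ k) (hbig : (2:ℝ)^k / 4 < l) :
    avg (fun x => s (lev x)) (Set.Icc a (fun i => a i + l)) * 2^(n*K) ≤ 8^n * S + D * S := by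
  set P := Set.Icc a (fun i => a i + l) with hP
  have hPc : IsCube P := ⟨a, l, hl, rfl⟩
  have hvol : (2:ℝ≥0∞)^(n*K) ≤ 4^n * volume P := by
    refine le_trans ?_ (volume_big (a := a) hbig)
    exact pow_le_pow_right₀ (by norm_num) (Nat.mul_le_mul_left _ hk)
  have hpt : ∀ y : Fin n → ℝ, s (lev y) ≤ (box n K).indicator (fun y => s (lev y)) y + D * s K := by
    intro y
    by_cases hy : y ∈ box n K
    · rw [indicator_of_mem hy]; exact le_self_add
    · rw [indicator_of_notMem hy, zero_add]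
      rw [← lev_le_iff_mem] at hy
      exact h.h1 _ _ (by omega)
  have hint : ∫⁻ y in P, s (lev y) ≤ 2^n * S + D * s K * volume P := by
    calc ∫⁻ y in P, s (lev y)
        ≤ ∫⁻ y in P, ((box n K).indicator (fun y => s (lev y)) y + D * s K) :=
          lintegral_mono hpt
      _ = (∫⁻ y in P, (box n K).indicator (fun y => s (lev y)) y) + D * s K * volume P := by
          rw [lintegral_add_right _ measurable_const, setLIntegral_const]
      _ ≤ (∫⁻ y, (box n K).indicator (fun y => s (lev y)) y) + D * s K * volume P := by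
          gcongr
          exact Measure.restrict_le_self
      _ ≤ 2^n * S + D * s K * volume P := by
          rw [lintegral_indicator (measurableSet_box K)]
          gcongr
          exact h.sigma_box le_rfl
  unfold avg
  rw [← ENNReal.mul_div_right_comm]
  apply ENNReal.div_le_of_le_mul
  calc (∫⁻ y in P, s (lev y)) * 2^(n*K) ≤ (2^n * S + D * s K * volume P) * 2^(n*K) := by gcongr
    _ = 2^n * S * 2^(n*K) + D * (s K * 2^(n*K)) * volume P := by ring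
    _ ≤ 2^n * S * (4^n * volume P) + D * S * volume P := by
        gcongr
        exact h.sK_le
    _ = (8^n * S + D * S) * volume P := by
        have : (8:ℝ≥0∞)^n = 2^n * 4^n := by rw [← mul_pow]; norm_num
        rw [this]; ring

/-- Pointwise bound for the local maximal function. -/
lemma Good.maxFun_le (h : Good n p s u D S W K) {Q : Set (Fin n → ℝ)} (hQ : MeasurableSet Q)
    (x : Fin n → ℝ) :
    maxFun (Q.indicator (fun y => s (lev y))) x ≤ (D + (8^n * S + D * S)) * s (lev x) +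
      (box n K).indicator
        (fun x => (∫⁻ y in Q, s (lev y)) * 4^n * ((2:ℝ≥0∞)^(n * lev x))⁻¹) x := by
  unfold maxFun
  refine iSup_le fun P => iSup_le fun hP => iSup_le fun hx => ?_
  have hPc := hP
  obtain ⟨a, l, hl, rfl⟩ := hP
  have hind : ∀ y, Q.indicator (fun y => s (lev y)) y ≤ s (lev y) := fun y =>
    indicator_le_self' (fun _ _ => bot_le) y
  by_cases hsmall : l ≤ (2:ℝ)^(lev x) / 4
  · refine le_trans ?_ le_self_add
    refine le_trans (avg_le_of_forall_le hPc (c := D * s (lev x)) ?_) ?_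
    · intro y hy
      exact (hind y).trans (h.h1 _ _ (lev_le_succ_of_small hl hx hy hsmall))
    · gcongr
      exact le_self_add
  · push Not at hsmall
    by_cases hK : lev x ≤ K
    · refine le_trans ?_ le_add_self
      rw [indicator_of_mem (lev_le_iff_mem.1 hK)]
      unfold avg
      apply ENNReal.div_le_of_le_mul
      have hvol := volume_big (a := a) hsmall
      calc ∫⁻ y in Set.Icc a (fun i => a i + l), Q.indicator (fun y => s (lev y)) y
          ≤ ∫⁻ y, Q.indicator (fun y => s (lev y)) y :=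
            lintegral_mono' Measure.restrict_le_self le_rfl
        _ = ∫⁻ y in Q, s (lev y) := lintegral_indicator hQ _
        _ = (∫⁻ y in Q, s (lev y)) * (((2:ℝ≥0∞)^(n * lev x))⁻¹ * 2^(n * lev x)) := by
            rw [ENNReal.inv_mul_cancel (T_ne_zero _) (T_ne_top _), mul_one]
        _ ≤ (∫⁻ y in Q, s (lev y)) * (((2:ℝ≥0∞)^(n * lev x))⁻¹ *
              (4^n * volume (Set.Icc a (fun i => a i + l)))) := by gcongr
        _ = _ := by ring
    · push Not at hK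
      refine le_trans ?_ le_self_add
      have h1 := h.avg_far (a := a) hl hK.le hsmall
      calc avg (Q.indicator (fun y => s (lev y))) (Set.Icc a (fun i => a i + l))
          ≤ avg (fun y => s (lev y)) (Set.Icc a (fun i => a i + l)) := avg_mono _ hind
        _ = avg (fun y => s (lev y)) (Set.Icc a (fun i => a i + l)) * 1 := (mul_one _).symm
        _ ≤ avg (fun y => s (lev y)) (Set.Icc a (fun i => a i + l)) * (s (lev x) * 2^(n*K)) := by
            gcongr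
            exact h.h3 _
        _ = (avg (fun y => s (lev y)) (Set.Icc a (fun i => a i + l)) * 2^(n*K)) * s (lev x) := by
            ring
        _ ≤ (8^n * S + D * S) * s (lev x) := by gcongr
        _ ≤ (D + (8^n * S + D * S)) * s (lev x) :=
            mul_le_mul_left (le_add_self (a := 8^n * S + D * S) (b := D)) _

lemma Good.Ainf_le (h : Good n p s u D S W K) {Q : Set (Fin n → ℝ)} (hQ : MeasurableSet Q)
    {j : ℕ} (hj : ∀ y ∈ Q, lev y ≤ j) :
    Ainf (fun y => s (lev y)) Q ≤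
      (D + (8^n * S + D * S) + 8^n) * (((min j K : ℕ) : ℝ≥0∞) + 1) := by
  unfold Ainf
  apply ENNReal.div_le_of_le_mul
  set σQ := ∫⁻ y in Q, s (lev y) with hσQ
  set D1 := D + (8^n * S + D * S) with hD1
  set g : ℕ → ℝ≥0∞ := fun k => σQ * 4^n * ((2:ℝ≥0∞)^(n * k))⁻¹ with hg
  have hsum : ∫⁻ x in Q, (box n K).indicator (fun x => g (lev x)) x ≤
      σQ * 8^n * (((min j K : ℕ) : ℝ≥0∞) + 1) := by
    calc ∫⁻ x in Q, (box n K).indicator (fun x => g (lev x)) x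
        = ∫⁻ x in box n K ∩ Q, g (lev x) := by
          rw [lintegral_indicator (measurableSet_box K),
            Measure.restrict_restrict (measurableSet_box K)]
      _ ≤ ∫⁻ x in box n (min j K), g (lev x) := by
          apply lintegral_mono_set
          rintro y ⟨hy1, hy2⟩
          rw [← lev_le_iff_mem] at hy1 ⊢
          exact le_min (hj y hy2) hy1
      _ ≤ ∑ k ∈ Finset.range (min j K + 1), g k * (2^n * 2^(n*k)) := lintegral_box_le g _
      _ = ∑ k ∈ Finset.range (min j K + 1), σQ * 8^n := by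
          apply Finset.sum_congr rfl
          intro k _
          have : (8:ℝ≥0∞)^n = 2^n * 4^n := by rw [← mul_pow]; norm_num
          calc g k * (2^n * 2^(n*k))
              = σQ * (2^n * 4^n) * (((2:ℝ≥0∞)^(n * k))⁻¹ * 2^(n*k)) := by simp only [hg]; ring
            _ = σQ * 8^n := by
              rw [ENNReal.inv_mul_cancel (T_ne_zero _) (T_ne_top _), mul_one, this]
      _ = σQ * 8^n * (((min j K : ℕ) : ℝ≥0∞) + 1) := by
          rw [Finset.sum_const, Finset.card_range, nsmul_eq_mul]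
          push_cast
          ring
  calc ∫⁻ x in Q, maxFun (Q.indicator (fun y => s (lev y))) x
      ≤ ∫⁻ x in Q, (D1 * s (lev x) + (box n K).indicator (fun x => g (lev x)) x) :=
        lintegral_mono (fun x => h.maxFun_le hQ x)
    _ = D1 * σQ + ∫⁻ x in Q, (box n K).indicator (fun x => g (lev x)) x := by
        rw [lintegral_add_left ((measurable_comp_lev s).const_mul D1),
          lintegral_const_mul _ (measurable_comp_lev s)]
    _ ≤ D1 * σQ * (((min j K : ℕ) : ℝ≥0∞) + 1) +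
          σQ * 8^n * (((min j K : ℕ) : ℝ≥0∞) + 1) := by
        exact add_le_add (le_mul_of_one_le_right bot_le le_add_self) hsum
    _ = _ := by ring

/-- The key estimate. -/
lemma Good.key (h : Good n p s u D S W K) (hp : 1 < p) {Q : Set (Fin n → ℝ)} (hQ : IsCube Q) :
    ∃ j : ℕ, (∀ y ∈ Q, lev y ≤ j) ∧
      avg (fun y => s (lev y)) Q ^ (p - 1) * avg (fun y => u (lev y)) Q *
        (((min j K : ℕ) : ℝ≥0∞) + 1) ≤
      (D ^ (p-1) * D ^ (p-1) + (8^n * S) ^ (p-1) * D ^ (p-1) + (8^n * S + D * S) ^ (p-1)) * W := by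
  have hp' : 0 ≤ p - 1 := by linarith
  obtain ⟨x₀, hx₀, hmax⟩ := exists_max_lev hQ
  refine ⟨lev x₀, hmax, ?_⟩
  have hQc := hQ
  obtain ⟨a, l, hl, rfl⟩ := hQ
  set j := lev x₀ with hj
  have hminK : (((min j K : ℕ) : ℝ≥0∞) + 1) ≤ W := by
    refine le_trans ?_ h.h5
    gcongr
    exact min_le_right _ _
  have hw : avg (fun y => u (lev y)) (Set.Icc a (fun i => a i + l)) ≤ D ^ (p-1) * u j :=
    avg_le_of_forall_le hQc (fun y hy => h.u_le hp (hmax y hy))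
  by_cases hsmall : l ≤ (2:ℝ)^j / 4
  · have hs : avg (fun y => s (lev y)) (Set.Icc a (fun i => a i + l)) ≤ D * s j :=
      avg_le_of_forall_le hQc (fun y hy => h.h1 _ _ (lev_le_succ_of_small hl hx₀ hy hsmall))
    calc _ ≤ (D * s j) ^ (p-1) * (D ^ (p-1) * u j) * W := by gcongr
      _ = D ^ (p-1) * D ^ (p-1) * W * (s j ^ (p-1) * u j) := by
          rw [ENNReal.mul_rpow_of_nonneg _ _ hp']; ring
      _ = D ^ (p-1) * D ^ (p-1) * W := by rw [h.hsu, mul_one]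
      _ ≤ _ := by
          gcongr
          rw [add_assoc]
          exact le_self_add
  · push Not at hsmall
    by_cases hK : j ≤ K
    · have hs : avg (fun y => s (lev y)) (Set.Icc a (fun i => a i + l)) * 2^(n*j) ≤ 8^n * S := by
        unfold avg
        rw [← ENNReal.mul_div_right_comm]
        apply ENNReal.div_le_of_le_mul
        have hvol := volume_big (a := a) hsmall
        have h1 : ∫⁻ y in Set.Icc a (fun i => a i + l), s (lev y) ≤ 2^n * S := by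
          refine le_trans (lintegral_mono_set ?_) (h.sigma_box hK)
          intro y hy
          exact lev_le_iff_mem.1 (hmax y hy)
        calc _ ≤ (2^n * S) * (4^n * volume (Set.Icc a (fun i => a i + l))) := by gcongr
          _ = _ := by
            have : (8:ℝ≥0∞)^n = 2^n * 4^n := by rw [← mul_pow]; norm_num
            rw [this]; ring
      rw [min_eq_left hK]
      calc _ ≤ avg (fun y => s (lev y)) (Set.Icc a (fun i => a i + l)) ^ (p-1) *
            (D ^ (p-1) * u j) * ((j:ℝ≥0∞) + 1) := by gcongr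
        _ = avg (fun y => s (lev y)) (Set.Icc a (fun i => a i + l)) ^ (p-1) *
            D ^ (p-1) * (u j * ((j:ℝ≥0∞) + 1)) := by ring
        _ ≤ avg (fun y => s (lev y)) (Set.Icc a (fun i => a i + l)) ^ (p-1) *
            D ^ (p-1) * (W * ((2:ℝ≥0∞)^(n*j)) ^ (p - 1)) :=
            mul_le_mul_right (h.h4 j) _
        _ = (avg (fun y => s (lev y)) (Set.Icc a (fun i => a i + l)) * 2^(n*j)) ^ (p-1) *
            D ^ (p-1) * W := by
            rw [ENNReal.mul_rpow_of_nonneg _ _ hp']; ring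
        _ ≤ (8^n * S) ^ (p-1) * D ^ (p-1) * W := by gcongr
        _ ≤ _ := by
            gcongr
            exact le_trans le_add_self le_self_add
    · push Not at hK
      have hs := h.avg_far (a := a) hl hK.le hsmall
      have hw' : avg (fun y => u (lev y)) (Set.Icc a (fun i => a i + l)) ≤
          ((2:ℝ≥0∞)^(n*K)) ^ (p - 1) :=
        avg_le_of_forall_le hQc (fun y _ => h.u_le_top hp _)
      calc _ ≤ avg (fun y => s (lev y)) (Set.Icc a (fun i => a i + l)) ^ (p-1) *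
            ((2:ℝ≥0∞)^(n*K)) ^ (p - 1) * W := by gcongr
        _ = (avg (fun y => s (lev y)) (Set.Icc a (fun i => a i + l)) * 2^(n*K)) ^ (p-1) * W := by
            rw [ENNReal.mul_rpow_of_nonneg _ _ hp']
        _ ≤ (8^n * S + D * S) ^ (p-1) * W := by gcongr
        _ ≤ _ := by
            gcongr
            exact le_add_self

end

end Pool.Agent.P.MP_2c43e6_an
end

-- part Pool.Agent.P.MP_2c43e6_an.Lower
section

namespace Pool.Agent.P.MP_2c43e6_an

open MeasureTheory Set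
open scoped ENNReal

variable {n : ℕ}

lemma lev_eq_zero_of_mem {x : Fin n → ℝ} (hx : x ∈ box n 0) : lev x = 0 :=
  Nat.le_zero.1 (lev_le_iff_mem.2 hx)

lemma volume_box_zero : volume (box n 0) = (2:ℝ≥0∞)^n := by
  rw [volume_box]; simp

/-- Lower bound for the operator norm, by testing on the indicator of the unit box. -/
lemma le_maxNorm (hn : 1 ≤ n) {p : ℝ} (hp : 1 < p) {u : ℕ → ℝ≥0∞} (hu0 : u 0 = 1) {W : ℝ≥0∞}
    (I : Finset ℕ) (hI : ∀ k ∈ I, 1 ≤ k)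
    (h6 : ∀ k ∈ I, W * ((2:ℝ≥0∞)^(n*k)) ^ (p - 1) ≤ u k * ((k:ℝ≥0∞) + 1)) :
    (((2:ℝ≥0∞)^n)⁻¹ * W * ∑ k ∈ I, ((k:ℝ≥0∞) + 1)⁻¹) ^ (1 / p) ≤
      maxNorm p (fun x : Fin n → ℝ => u (lev x)) := by
  have hp0 : 0 < p := by linarith
  set c : ℝ := ((2:ℝ)^n) ^ (-1 / p) with hc
  have hcpos : 0 < c := by positivity
  set cE : ℝ≥0∞ := ENNReal.ofReal c with hcE
  have hcp : cE ^ p = ((2:ℝ≥0∞)^n)⁻¹ := by
    rw [hcE, ENNReal.ofReal_rpow_of_pos hcpos, hc, ← Real.rpow_mul (by positivity)]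
    have : -1 / p * p = -1 := by field_simp
    rw [this, Real.rpow_neg_one, ENNReal.ofReal_inv_of_pos (by positivity),
      ENNReal.ofReal_pow (by norm_num)]
    simp
  set f : (Fin n → ℝ) → ℝ := (box n 0).indicator (fun _ => c) with hf
  have hfm : Measurable f := measurable_const.indicator (measurableSet_box 0)
  have hfe : (fun y => ‖f y‖ₑ) = (box n 0).indicator (fun _ => cE) := by
    funext y
    by_cases hy : y ∈ box n 0
    · simp only [hf, indicator_of_mem hy, hcE]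
      rw [Real.enorm_eq_ofReal hcpos.le]
    · simp [hf, indicator_of_notMem hy]
  have hnorm : (∫⁻ x, ‖f x‖ₑ ^ p * u (lev x)) ^ (1 / p) = 1 := by
    have : (fun x => ‖f x‖ₑ ^ p * u (lev x)) =
        (box n 0).indicator (fun _ => ((2:ℝ≥0∞)^n)⁻¹) := by
      funext x
      have h1 := congrFun hfe x
      rw [h1]
      by_cases hx : x ∈ box n 0
      · simp only [indicator_of_mem hx]
        rw [lev_eq_zero_of_mem hx, hu0, mul_one, hcp]
      · simp only [indicator_of_notMem hx]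
        rw [ENNReal.zero_rpow_of_pos hp0, zero_mul]
    rw [this, lintegral_indicator_const (measurableSet_box 0), volume_box_zero,
      ENNReal.inv_mul_cancel (T_ne_zero _) (T_ne_top _), ENNReal.one_rpow]
  have hM : ∀ x : Fin n → ℝ, cE * ((2:ℝ≥0∞)^(n * lev x))⁻¹ ≤ maxFun (fun y => ‖f y‖ₑ) x := by
    intro x
    unfold maxFun
    refine le_trans ?_ (le_iSup₂_of_le (box n (lev x)) (isCube_box _)
      (le_iSup_of_le (lev_le_iff_mem.1 le_rfl) le_rfl))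
    rw [hfe]
    unfold avg
    have hsub : box n 0 ∩ box n (lev x) = box n 0 := by
      apply inter_eq_left.2
      intro y hy
      rw [← lev_le_iff_mem] at hy ⊢
      omega
    rw [lintegral_indicator (measurableSet_box 0), Measure.restrict_restrict (measurableSet_box 0),
      hsub, setLIntegral_const, volume_box_zero, volume_box]
    rw [ENNReal.le_div_iff_mul_le (Or.inl (mul_ne_zero (T_ne_zero _) (T_ne_zero _)))
      (Or.inl (ENNReal.mul_ne_top (T_ne_top _) (T_ne_top _)))]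
    apply le_of_eq
    calc cE * ((2:ℝ≥0∞)^(n * lev x))⁻¹ * (2^n * 2^(n * lev x))
        = cE * 2^n * (((2:ℝ≥0∞)^(n * lev x))⁻¹ * 2^(n * lev x)) := by ring
      _ = cE * 2^n := by rw [ENNReal.inv_mul_cancel (T_ne_zero _) (T_ne_top _), mul_one]
  unfold maxNorm
  refine le_trans ?_ (le_iSup₂_of_le f hfm (le_iSup_of_le hnorm le_rfl))
  apply ENNReal.rpow_le_rpow _ (by positivity)
  set g : ℕ → ℝ≥0∞ := fun k => (cE * ((2:ℝ≥0∞)^(n * k))⁻¹) ^ p * u k with hg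
  calc ((2:ℝ≥0∞)^n)⁻¹ * W * ∑ k ∈ I, ((k:ℝ≥0∞) + 1)⁻¹
      = ∑ k ∈ I, ((2:ℝ≥0∞)^n)⁻¹ * W * ((k:ℝ≥0∞) + 1)⁻¹ := by rw [Finset.mul_sum]
    _ ≤ ∑ k ∈ I, g k * 2^(n*k) := by
        apply Finset.sum_le_sum
        intro k hk
        set T : ℝ≥0∞ := (2:ℝ≥0∞)^(n*k) with hT
        have hT0 : T ≠ 0 := T_ne_zero _
        have hTt : T ≠ ⊤ := T_ne_top _
        have hk0 : ((k:ℝ≥0∞) + 1) ≠ 0 := by simp
        have hkt : ((k:ℝ≥0∞) + 1) ≠ ⊤ := by simp
        have e1 : T⁻¹ ^ p * T * T ^ (p - 1) = 1 := by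
          have : T * T ^ (p - 1) = T ^ p := by
            conv_lhs => rw [← ENNReal.rpow_one T, ← ENNReal.rpow_mul, one_mul]
            rw [ENNReal.rpow_one]
            nth_rewrite 1 [← ENNReal.rpow_one T]
            rw [← ENNReal.rpow_add _ _ hT0 hTt]
            congr 1; ring
          rw [mul_assoc, this, ← ENNReal.mul_rpow_of_nonneg _ _ hp0.le,
            ENNReal.inv_mul_cancel hT0 hTt, ENNReal.one_rpow]
        calc ((2:ℝ≥0∞)^n)⁻¹ * W * ((k:ℝ≥0∞) + 1)⁻¹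
            = ((2:ℝ≥0∞)^n)⁻¹ * W * ((k:ℝ≥0∞) + 1)⁻¹ * (T⁻¹ ^ p * T * T ^ (p - 1)) := by
              rw [e1, mul_one]
          _ = ((2:ℝ≥0∞)^n)⁻¹ * ((k:ℝ≥0∞) + 1)⁻¹ * (T⁻¹ ^ p * T) * (W * T ^ (p - 1)) := by ring
          _ ≤ ((2:ℝ≥0∞)^n)⁻¹ * ((k:ℝ≥0∞) + 1)⁻¹ * (T⁻¹ ^ p * T) * (u k * ((k:ℝ≥0∞) + 1)) :=
              mul_le_mul_right (h6 k hk) _
          _ = ((2:ℝ≥0∞)^n)⁻¹ * T⁻¹ ^ p * u k * T * (((k:ℝ≥0∞) + 1)⁻¹ * ((k:ℝ≥0∞) + 1)) := by ring
          _ = g k * T := by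
              rw [ENNReal.inv_mul_cancel hk0 hkt, mul_one, hg]
              simp only
              rw [ENNReal.mul_rpow_of_nonneg _ _ hp0.le, hcp]
    _ ≤ ∫⁻ x : Fin n → ℝ, g (lev x) := le_lintegral_lev hn g I hI
    _ ≤ _ := by
        apply lintegral_mono
        intro x
        simp only [hg]
        gcongr
        exact hM x

section
variable {p : ℝ} {s u : ℕ → ℝ≥0∞} {D S W : ℝ≥0∞} {K : ℕ}

/-- The constant in the upper bounds. -/
noncomputable def cst (n : ℕ) (p : ℝ) (D S : ℝ≥0∞) : ℝ≥0∞ :=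
  (D ^ (p-1) * D ^ (p-1) + (8^n * S) ^ (p-1) * D ^ (p-1) + (8^n * S + D * S) ^ (p-1)) *
    (D + (8^n * S + D * S) + 8^n)

lemma cst_ne_top (hp : 1 < p) (hD : D ≠ ⊤) (hS : S ≠ ⊤) : cst n p D S ≠ ⊤ := by
  have hp' : 0 ≤ p - 1 := by linarith
  have h8 : (8:ℝ≥0∞)^n ≠ ⊤ := ENNReal.pow_ne_top (by simp)
  unfold cst
  finiteness

lemma Good.Ap_le (h : Good n p s u D S W K) (hp : 1 < p)
    (hus : ∀ k, u k ^ (-1 / (p - 1)) = s k) :
    AqConst p (fun x : Fin n → ℝ => u (lev x)) ≤ cst n p D S * W := by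
  unfold AqConst
  refine iSup_le fun Q => iSup_le fun hQ => ?_
  obtain ⟨j, -, hj⟩ := h.key hp hQ
  unfold Aq
  simp only [hus]
  calc _ = avg (fun y => s (lev y)) Q ^ (p - 1) * avg (fun y => u (lev y)) Q * 1 := by ring
    _ ≤ avg (fun y => s (lev y)) Q ^ (p - 1) * avg (fun y => u (lev y)) Q *
        (((min j K : ℕ) : ℝ≥0∞) + 1) := mul_le_mul_right le_add_self _
    _ ≤ _ := hj
    _ ≤ _ := by
      unfold cst
      gcongr
      apply le_mul_of_one_le_right bot_le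
      refine le_trans ?_ le_add_self
      exact one_le_pow₀ (by norm_num)

lemma Good.mixed_le (h : Good n p s u D S W K) (hp : 1 < p) {p' : ℝ} (hp' : p' = p / (p - 1))
    (hsu : ∀ k, s k ^ (-1 / (p' - 1)) = u k) :
    mixedConst p' (1 / p') (1 / p) (fun x : Fin n → ℝ => s (lev x)) ≤
      (cst n p D S * W) ^ (1 / p) := by
  have hp0 : 0 < p := by linarith
  have hp1 : 0 < p - 1 := by linarith
  have hp'0 : 0 < p' := by rw [hp']; positivity
  unfold mixedConst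
  refine iSup_le fun Q => iSup_le fun hQ => ?_
  obtain ⟨j, hjQ, hj⟩ := h.key hp hQ
  have hA := h.Ainf_le hQ.measurableSet hjQ
  unfold Aq
  simp only [hsu]
  have e1 : (1 / p') = (p - 1) * (1 / p) := by rw [hp']; field_simp
  have e2 : (p' - 1) * (1 / p') = 1 / p := by rw [hp']; field_simp; ring
  rw [ENNReal.mul_rpow_of_nonneg _ _ (by positivity), ← ENNReal.rpow_mul, e2, e1,
    ENNReal.rpow_mul, ← ENNReal.mul_rpow_of_nonneg _ _ (by positivity),
    ← ENNReal.mul_rpow_of_nonneg _ _ (by positivity)]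
  apply ENNReal.rpow_le_rpow _ (by positivity)
  calc _ ≤ avg (fun y => s (lev y)) Q ^ (p - 1) * avg (fun y => u (lev y)) Q *
        ((D + (8^n * S + D * S) + 8^n) * (((min j K : ℕ) : ℝ≥0∞) + 1)) := mul_le_mul_right hA _
    _ = avg (fun y => s (lev y)) Q ^ (p - 1) * avg (fun y => u (lev y)) Q *
        (((min j K : ℕ) : ℝ≥0∞) + 1) * (D + (8^n * S + D * S) + 8^n) := by ring
    _ ≤ _ * (D + (8^n * S + D * S) + 8^n) := mul_le_mul_left hj _
    _ = _ := by unfold cst; ring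

lemma avg_box_zero (g : ℕ → ℝ≥0∞) : avg (fun x : Fin n → ℝ => g (lev x)) (box n 0) = g 0 := by
  unfold avg
  rw [setLIntegral_congr_fun (measurableSet_box 0) (g := fun _ => g 0)
    (fun x hx => by simp only [lev_eq_zero_of_mem hx]), setLIntegral_const]
  exact ENNReal.mul_div_cancel_right (isCube_box 0).volume_ne_zero (isCube_box 0).volume_ne_top

lemma one_le_mixed {q α β : ℝ} (hβ : 0 ≤ β) (hs0 : s 0 = 1) :
    1 ≤ mixedConst q α β (fun x : Fin n → ℝ => s (lev x)) := by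
  unfold mixedConst
  refine le_iSup₂_of_le (box n 0) (isCube_box 0) ?_
  have h1 : Aq q (fun x : Fin n → ℝ => s (lev x)) (box n 0) = 1 := by
    unfold Aq
    rw [avg_box_zero s, avg_box_zero (fun k => s k ^ (-1 / (q - 1))), hs0]
    simp
  have h2 : 1 ≤ Ainf (fun x : Fin n → ℝ => s (lev x)) (box n 0) := by
    unfold Ainf
    have h3 : ∫⁻ x in box n 0, s (lev x) = volume (box n 0) := by
      rw [setLIntegral_congr_fun (measurableSet_box 0) (g := fun _ => 1)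
        (fun x hx => by simp only [lev_eq_zero_of_mem hx, hs0]), setLIntegral_const, one_mul]
    rw [h3, ENNReal.le_div_iff_mul_le (Or.inl (isCube_box 0).volume_ne_zero)
      (Or.inl (isCube_box 0).volume_ne_top), ← setLIntegral_const]
    apply setLIntegral_mono' (measurableSet_box 0)
    intro x hx
    unfold maxFun
    refine le_iSup₂_of_le (box n 0) (isCube_box 0) (le_iSup_of_le hx ?_)
    unfold avg
    rw [lintegral_indicator (measurableSet_box 0), Measure.restrict_restrict (measurableSet_box 0),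
      inter_self, h3, ENNReal.div_self (isCube_box 0).volume_ne_zero (isCube_box 0).volume_ne_top]
  rw [h1, ENNReal.one_rpow, one_mul]
  calc (1:ℝ≥0∞) = 1 ^ β := (ENNReal.one_rpow β).symm
    _ ≤ _ := ENNReal.rpow_le_rpow h2 hβ

end

end Pool.Agent.P.MP_2c43e6_an
end

-- part Pool.Agent.P.MP_2c43e6_an.Seq
section

namespace Pool.Agent.P.MP_2c43e6_an

open MeasureTheory Set
open scoped ENNReal

lemma exists_poly_le_exp {γ : ℝ} (hγ : 0 ≤ γ) :
    ∃ C : ℝ, 1 ≤ C ∧ ∀ i : ℕ, ((i:ℝ) + 1) ^ γ ≤ C * 2^i := by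
  set G := ⌈γ⌉₊ with hG
  have hl : 0 < Real.log 2 := Real.log_pos (by norm_num)
  refine ⟨max 1 (2 * (G.factorial : ℝ) / (Real.log 2)^G), le_max_left _ _, fun i => ?_⟩
  have h1 : ((i:ℝ) + 1) ^ γ ≤ ((i:ℝ) + 1) ^ G := by
    rw [← Real.rpow_natCast]
    exact Real.rpow_le_rpow_of_exponent_le (by linarith [Nat.cast_nonneg (α := ℝ) i])
      (Nat.le_ceil γ)
  have h2 := Real.pow_div_factorial_le_exp (((i:ℝ) + 1) * Real.log 2) (by positivity) G
  have h3 : Real.exp (((i:ℝ) + 1) * Real.log 2) = 2 * 2^i := by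
    have : ((i:ℝ) + 1) = ((i + 1 : ℕ) : ℝ) := by push_cast; ring
    rw [this, Real.exp_nat_mul, Real.exp_log (by norm_num)]; ring
  rw [h3, div_le_iff₀ (by positivity), mul_pow] at h2
  have h4 : ((i:ℝ) + 1) ^ G ≤ 2 * (G.factorial : ℝ) / (Real.log 2)^G * 2^i := by
    rw [div_mul_eq_mul_div, le_div_iff₀ (by positivity)]
    linarith
  calc _ ≤ _ := h1
    _ ≤ _ := h4
    _ ≤ _ := by gcongr; exact le_max_right _ _

/-- The values of `σ` on the dyadic shells. -/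
noncomputable def sR (n : ℕ) (γ : ℝ) (J K k : ℕ) : ℝ :=
  max (((2:ℝ)^(n*k))⁻¹ * ((2:ℝ)^k)⁻¹)
    (max (((2:ℝ)^J)⁻¹ * ((2:ℝ)^(n*k))⁻¹ * ((k:ℝ) + 1) ^ γ) ((2:ℝ)^(n*K))⁻¹)

variable {n : ℕ} {γ : ℝ} {J K : ℕ}

lemma sR_pos (k : ℕ) : 0 < sR n γ J K k := lt_max_of_lt_left (by positivity)

lemma sR_zero : sR n γ J K 0 = 1 := by
  unfold sR
  have h1 : ((2:ℝ)^J)⁻¹ ≤ 1 := inv_le_one_of_one_le₀ (one_le_pow₀ (by norm_num))
  have h2 : ((2:ℝ)^(n*K))⁻¹ ≤ 1 := inv_le_one_of_one_le₀ (one_le_pow₀ (by norm_num))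
  simp [h1, h2]

lemma sR_h1 (hn : 1 ≤ n) (hγ : 0 ≤ γ) {C : ℝ} (hC1 : 1 ≤ C)
    (hC : ∀ i : ℕ, ((i:ℝ) + 1) ^ γ ≤ C * 2^i) (j k : ℕ) (hjk : k ≤ j + 1) :
    sR n γ J K j ≤ (2 * 2^n * C) * sR n γ J K k := by
  obtain ⟨i, hi⟩ : ∃ i, j + 1 = k + i := ⟨j + 1 - k, by omega⟩
  have h2n : (1:ℝ) ≤ 2^n := one_le_pow₀ (by norm_num)
  have hD : (1:ℝ) ≤ 2 * 2^n * C := by nlinarith
  have e1 : (2:ℝ)^(n*j) * 2^n = 2^(n*k) * 2^(n*i) := by
    rw [← pow_add, ← pow_add]; congr 1; nlinarith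
  have e2 : (2:ℝ)^j * 2 = 2^k * 2^i := by
    rw [← pow_succ, ← pow_add, hi]
  have hi1 : (1:ℝ) ≤ 2^i := one_le_pow₀ (by norm_num)
  have hni : (2:ℝ)^i ≤ 2^(n*i) := pow_le_pow_right₀ (by norm_num) (by nlinarith)
  have e3 : ((2:ℝ)^(n*j))⁻¹ = 2^n * ((2:ℝ)^(n*k))⁻¹ * ((2:ℝ)^(n*i))⁻¹ := by
    field_simp; linarith
  have e4 : ((2:ℝ)^j)⁻¹ = 2 * ((2:ℝ)^k)⁻¹ * ((2:ℝ)^i)⁻¹ := by
    field_simp; linarith
  have hb1 : ((2:ℝ)^(n*i))⁻¹ ≤ ((2:ℝ)^i)⁻¹ := inv_anti₀ (by positivity) hni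
  have hb2 : ((2:ℝ)^i)⁻¹ ≤ 1 := inv_le_one_of_one_le₀ hi1
  unfold sR
  refine max_le ?_ (max_le ?_ ?_)
  · refine le_trans ?_ (mul_le_mul_of_nonneg_left (le_max_left _ _) (by positivity))
    rw [e3, e4]
    calc 2^n * ((2:ℝ)^(n*k))⁻¹ * ((2:ℝ)^(n*i))⁻¹ * (2 * ((2:ℝ)^k)⁻¹ * ((2:ℝ)^i)⁻¹)
        ≤ 2^n * ((2:ℝ)^(n*k))⁻¹ * 1 * (2 * ((2:ℝ)^k)⁻¹ * C) := by
          gcongr
          · exact hb1.trans hb2
          · exact hb2.trans hC1
      _ = _ := by ring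
  · refine le_trans ?_ (mul_le_mul_of_nonneg_left
      (le_trans (le_max_left _ _) (le_max_right _ _)) (by positivity))
    rw [e3]
    have hj : ((j:ℝ) + 1) ^ γ ≤ ((k:ℝ) + 1) ^ γ * (C * 2^i) := by
      calc ((j:ℝ) + 1) ^ γ ≤ (((k:ℝ) + 1) * ((i:ℝ) + 1)) ^ γ := by
            apply Real.rpow_le_rpow (by positivity) _ hγ
            have : (j:ℝ) + 1 = k + i := by exact_mod_cast hi
            nlinarith [Nat.cast_nonneg (α := ℝ) i, Nat.cast_nonneg (α := ℝ) k]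
        _ = ((k:ℝ) + 1) ^ γ * ((i:ℝ) + 1) ^ γ := Real.mul_rpow (by positivity) (by positivity)
        _ ≤ _ := by gcongr; exact hC i
    calc ((2:ℝ)^J)⁻¹ * (2^n * ((2:ℝ)^(n*k))⁻¹ * ((2:ℝ)^(n*i))⁻¹) * ((j:ℝ) + 1) ^ γ
        ≤ ((2:ℝ)^J)⁻¹ * (2^n * ((2:ℝ)^(n*k))⁻¹ * ((2:ℝ)^i)⁻¹) *
            (((k:ℝ) + 1) ^ γ * (C * 2^i)) := by gcongr
      _ = (1 * 2^n * C) * (((2:ℝ)^J)⁻¹ * ((2:ℝ)^(n*k))⁻¹ * ((k:ℝ) + 1) ^ γ) := by
          field_simp
      _ ≤ _ := by gcongr; norm_num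
  · refine le_trans ?_ (mul_le_mul_of_nonneg_left
      (le_trans (le_max_right _ _) (le_max_right _ _)) (by positivity))
    exact le_mul_of_one_le_left (by positivity) hD

lemma sum_geom_le (m : ℕ) : ∑ k ∈ Finset.range m, ((2:ℝ)^k)⁻¹ ≤ 2 := by
  have : ∀ m : ℕ, ∑ k ∈ Finset.range m, ((2:ℝ)^k)⁻¹ = 2 - 2 * ((2:ℝ)^m)⁻¹ := by
    intro m
    induction m with
    | zero => simp
    | succ m ih => rw [Finset.sum_range_succ, ih, pow_succ]; field_simp; ring
  rw [this]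
  have : (0:ℝ) < ((2:ℝ)^m)⁻¹ := by positivity
  linarith

lemma sum_pow_le (hn : 1 ≤ n) (m : ℕ) :
    ∑ k ∈ Finset.range (m + 1), (2:ℝ)^(n*k) ≤ 2 * 2^(n*m) := by
  induction m with
  | zero => simp
  | succ m ih =>
    rw [Finset.sum_range_succ]
    have : (2:ℝ) * 2^(n*m) ≤ 2^(n*(m+1)) := by
      rw [← pow_succ']
      exact pow_le_pow_right₀ (by norm_num) (by nlinarith)
    linarith

lemma sR_h2 (hn : 1 ≤ n) (hγ : 0 ≤ γ) (hJK : ((K:ℝ) + 1) ^ (γ + 1) ≤ 2^J) :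
    ∑ k ∈ Finset.range (K + 1), sR n γ J K k * 2^(n*k) ≤ 5 := by
  have h1 : ∀ k ∈ Finset.range (K + 1), sR n γ J K k * 2^(n*k) ≤
      ((2:ℝ)^k)⁻¹ + ((2:ℝ)^J)⁻¹ * ((K:ℝ) + 1) ^ γ + ((2:ℝ)^(n*K))⁻¹ * 2^(n*k) := by
    intro k hk
    have hk' : (k:ℝ) ≤ K := by exact_mod_cast Nat.lt_succ_iff.1 (Finset.mem_range.1 hk)
    have h2 : sR n γ J K k ≤ ((2:ℝ)^(n*k))⁻¹ * ((2:ℝ)^k)⁻¹ +
        ((2:ℝ)^J)⁻¹ * ((2:ℝ)^(n*k))⁻¹ * ((K:ℝ) + 1) ^ γ + ((2:ℝ)^(n*K))⁻¹ := by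
      have a1 : (0:ℝ) < ((2:ℝ)^(n*k))⁻¹ * ((2:ℝ)^k)⁻¹ := by positivity
      have a2 : (0:ℝ) < ((2:ℝ)^J)⁻¹ * ((2:ℝ)^(n*k))⁻¹ * ((K:ℝ) + 1) ^ γ := by positivity
      have a3 : (0:ℝ) < ((2:ℝ)^(n*K))⁻¹ := by positivity
      have a4 : ((2:ℝ)^J)⁻¹ * ((2:ℝ)^(n*k))⁻¹ * ((k:ℝ) + 1) ^ γ ≤
          ((2:ℝ)^J)⁻¹ * ((2:ℝ)^(n*k))⁻¹ * ((K:ℝ) + 1) ^ γ := by gcongr
      unfold sR
      refine max_le (by linarith) (max_le (by linarith) (by linarith))
    calc _ ≤ (((2:ℝ)^(n*k))⁻¹ * ((2:ℝ)^k)⁻¹ +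
        ((2:ℝ)^J)⁻¹ * ((2:ℝ)^(n*k))⁻¹ * ((K:ℝ) + 1) ^ γ + ((2:ℝ)^(n*K))⁻¹) * 2^(n*k) := by gcongr
      _ = _ := by field_simp
  refine (Finset.sum_le_sum h1).trans ?_
  rw [Finset.sum_add_distrib, Finset.sum_add_distrib, Finset.sum_const, Finset.card_range,
    ← Finset.mul_sum, nsmul_eq_mul]
  have b1 := sum_geom_le (K + 1)
  have b2 : ((K + 1 : ℕ) : ℝ) * (((2:ℝ)^J)⁻¹ * ((K:ℝ) + 1) ^ γ) ≤ 1 := by
    rw [Real.rpow_add_one (by positivity)] at hJK
    push_cast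
    calc ((K:ℝ) + 1) * (((2:ℝ)^J)⁻¹ * ((K:ℝ) + 1) ^ γ)
        = ((2:ℝ)^J)⁻¹ * (((K:ℝ) + 1) ^ γ * ((K:ℝ) + 1)) := by ring
      _ ≤ ((2:ℝ)^J)⁻¹ * 2^J := by gcongr
      _ = 1 := by field_simp
  have b3 : ((2:ℝ)^(n*K))⁻¹ * ∑ k ∈ Finset.range (K + 1), (2:ℝ)^(n*k) ≤ 2 := by
    calc _ ≤ ((2:ℝ)^(n*K))⁻¹ * (2 * 2^(n*K)) := by gcongr; exact sum_pow_le hn K
      _ = 2 := by field_simp
  linarith

lemma sR_h3 (k : ℕ) : 1 ≤ sR n γ J K k * 2^(n*K) := by
  calc (1:ℝ) = ((2:ℝ)^(n*K))⁻¹ * 2^(n*K) := by field_simp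
    _ ≤ _ := by
      gcongr
      exact le_trans (le_max_right _ _) (le_max_right _ _)

lemma mid_rpow {p : ℝ} (hp : 1 < p) (hγ : γ = 1 / (p - 1)) (k : ℕ) :
    (((2:ℝ)^J)⁻¹ * ((2:ℝ)^(n*k))⁻¹ * ((k:ℝ) + 1) ^ γ) ^ (1 - p) * ((k:ℝ) + 1) =
      ((2:ℝ)^J) ^ (p - 1) * ((2:ℝ)^(n*k)) ^ (p - 1) := by
  have hp1 : 0 < p - 1 := by linarith
  rw [Real.mul_rpow (by positivity) (by positivity), Real.mul_rpow (by positivity) (by positivity),
    ← Real.rpow_mul (by positivity)]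
  have e : γ * (1 - p) = -1 := by rw [hγ]; field_simp; ring
  have e2 : ∀ t : ℝ, 0 < t → (t⁻¹) ^ (1 - p) = t ^ (p - 1) := by
    intro t ht
    rw [Real.inv_rpow ht.le, ← Real.rpow_neg ht.le]
    congr 1; ring
  rw [e, Real.rpow_neg_one, e2 _ (by positivity), e2 _ (by positivity)]
  field_simp

lemma sR_h4 {p : ℝ} (hp : 1 < p) (hγ : γ = 1 / (p - 1)) (k : ℕ) :
    sR n γ J K k ^ (1 - p) * ((k:ℝ) + 1) ≤ ((2:ℝ)^J) ^ (p - 1) * ((2:ℝ)^(n*k)) ^ (p - 1) := by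
  rw [← mid_rpow hp hγ k]
  gcongr ?_ * _
  apply Real.rpow_le_rpow_of_nonpos (by positivity) _ (by linarith)
  exact le_trans (le_max_left _ _) (le_max_right _ _)

lemma sR_h6 (hn : 1 ≤ n) {p : ℝ} (hp : 1 < p) (hγ : γ = 1 / (p - 1)) {k : ℕ} (hJk : J ≤ k)
    (hkK : k + J ≤ K) :
    ((2:ℝ)^J) ^ (p - 1) * ((2:ℝ)^(n*k)) ^ (p - 1) = sR n γ J K k ^ (1 - p) * ((k:ℝ) + 1) := by
  rw [← mid_rpow hp hγ k]
  congr 2
  have hγ0 : 0 ≤ γ := by rw [hγ]; have : 0 < p - 1 := by linarith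
                         positivity
  have h1 : (1:ℝ) ≤ ((k:ℝ) + 1) ^ γ :=
    Real.one_le_rpow (by linarith [Nat.cast_nonneg (α := ℝ) k]) hγ0
  have h2 : ((2:ℝ)^(n*K))⁻¹ ≤ ((2:ℝ)^J)⁻¹ * ((2:ℝ)^(n*k))⁻¹ := by
    rw [← mul_inv, ← pow_add]
    apply inv_anti₀ (by positivity)
    apply pow_le_pow_right₀ (by norm_num)
    nlinarith
  have h3 : ((2:ℝ)^k)⁻¹ ≤ ((2:ℝ)^J)⁻¹ :=
    inv_anti₀ (by positivity) (pow_le_pow_right₀ (by norm_num) hJk)
  have h4 : ((2:ℝ)^J)⁻¹ * ((2:ℝ)^(n*k))⁻¹ ≤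
      ((2:ℝ)^J)⁻¹ * ((2:ℝ)^(n*k))⁻¹ * ((k:ℝ) + 1) ^ γ :=
    le_mul_of_one_le_right (by positivity) h1
  unfold sR
  rw [max_eq_left (h2.trans h4), max_eq_right]
  refine le_trans ?_ h4
  rw [mul_comm]
  gcongr

lemma sR_h5 {p : ℝ} (hp : 1 < p) (hγ : γ = 1 / (p - 1)) (hJK : ((K:ℝ) + 1) ^ (γ + 1) ≤ 2^J) :
    (K:ℝ) + 1 ≤ ((2:ℝ)^J) ^ (p - 1) := by
  have hp1 : 0 < p - 1 := by linarith
  have hK : (1:ℝ) ≤ (K:ℝ) + 1 := by linarith [Nat.cast_nonneg (α := ℝ) K]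
  calc (K:ℝ) + 1 = (((K:ℝ) + 1) ^ γ) ^ (p - 1) := by
        rw [← Real.rpow_mul (by positivity), hγ, one_div, inv_mul_cancel₀ hp1.ne', Real.rpow_one]
    _ ≤ _ := by
        apply Real.rpow_le_rpow (by positivity) _ hp1.le
        exact le_trans (Real.rpow_le_rpow_of_exponent_le hK (by linarith)) hJK

lemma harmonic_lower (J N : ℕ) (hJN : J ≤ N) :
    Real.log ((N:ℝ) + 1) - Real.log ((J:ℝ) + 1) ≤ ∑ k ∈ Finset.Ico J N, ((k:ℝ) + 1)⁻¹ := by
  induction N, hJN using Nat.le_induction with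
  | base => simp
  | succ N hJN ih =>
    rw [Finset.sum_Ico_succ_top hJN]
    have h1 : Real.log (((N + 1 : ℕ) : ℝ) + 1) - Real.log ((N:ℝ) + 1) ≤ ((N:ℝ) + 1)⁻¹ := by
      rw [← Real.log_div (by positivity) (by positivity)]
      refine (Real.log_le_sub_one_of_pos (by positivity)).trans (le_of_eq ?_)
      push_cast
      field_simp
      ring
    linarith

/-- Choice of the parameters. -/
lemma exists_params (hγ : 0 ≤ γ) (B : ℝ) :
    ∃ J N : ℕ, 1 ≤ J ∧ (((N + J : ℕ) : ℝ) + 1) ^ (γ + 1) ≤ 2^J ∧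
      B ≤ ∑ k ∈ Finset.Ico J N, ((k:ℝ) + 1)⁻¹ := by
  obtain ⟨C, hC1, hC⟩ := exists_poly_le_exp (γ := γ + 2) (by linarith)
  obtain ⟨L, hL⟩ := exists_nat_ge (Real.exp B)
  have hL0 : (0:ℝ) < L := (Real.exp_pos B).trans_le hL
  have hL1 : 1 ≤ L := by exact_mod_cast hL0
  obtain ⟨J, hJ⟩ := exists_nat_ge (((L:ℝ) + 1) ^ (γ + 1) * C)
  have hJ0 : (0:ℝ) < J := lt_of_lt_of_le (by positivity) hJ
  have hJ1 : 1 ≤ J := by exact_mod_cast hJ0
  refine ⟨J, L * (J + 1), hJ1, ?_, ?_⟩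
  · have e : (((L * (J + 1) + J : ℕ) : ℝ) + 1) = ((L:ℝ) + 1) * ((J:ℝ) + 1) := by push_cast; ring
    rw [e, Real.mul_rpow (by positivity) (by positivity)]
    have h1 := hC J
    have e2 : γ + 2 = (γ + 1) + 1 := by ring
    rw [e2, Real.rpow_add_one (by positivity)] at h1
    have h2 : ((L:ℝ) + 1) ^ (γ + 1) * C ≤ (J:ℝ) + 1 := by linarith
    have h3 : (((L:ℝ) + 1) ^ (γ + 1) * ((J:ℝ) + 1) ^ (γ + 1)) * C ≤ 2^J * C := by
      calc (((L:ℝ) + 1) ^ (γ + 1) * ((J:ℝ) + 1) ^ (γ + 1)) * C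
          = ((J:ℝ) + 1) ^ (γ + 1) * (((L:ℝ) + 1) ^ (γ + 1) * C) := by ring
        _ ≤ ((J:ℝ) + 1) ^ (γ + 1) * ((J:ℝ) + 1) := by gcongr
        _ ≤ _ := by linarith
    exact le_of_mul_le_mul_right h3 (by linarith)
  · refine le_trans ?_ (harmonic_lower J (L * (J + 1)) (by nlinarith))
    have h1 : B ≤ Real.log L := by
      rw [Real.le_log_iff_exp_le hL0]; exact hL
    have h2 : Real.log L + Real.log ((J:ℝ) + 1) ≤ Real.log (((L * (J + 1) : ℕ) : ℝ) + 1) := by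
      rw [← Real.log_mul hL0.ne' (by positivity)]
      apply Real.log_le_log (by positivity)
      push_cast
      linarith
    linarith

end Pool.Agent.P.MP_2c43e6_an
end

-- part Pool.Agent.P.MP_2c43e6_an.Main
section

namespace Pool.Agent.P.MP_2c43e6_an

open MeasureTheory Set Filter
open scoped ENNReal Topology

variable {n : ℕ}

lemma ofReal_two_pow (m : ℕ) : ENNReal.ofReal ((2:ℝ)^m) = (2:ℝ≥0∞)^m := by
  rw [ENNReal.ofReal_pow (by norm_num)]; simp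

lemma ofReal_nat_succ (k : ℕ) : ENNReal.ofReal ((k:ℝ) + 1) = (k:ℝ≥0∞) + 1 := by
  rw [ENNReal.ofReal_add (by positivity) (by norm_num)]; simp

lemma good_sR (hn : 1 ≤ n) {p γ : ℝ} (hp : 1 < p) (hγ : γ = 1 / (p - 1)) {C : ℝ} (hC1 : 1 ≤ C)
    (hC : ∀ i : ℕ, ((i:ℝ) + 1) ^ γ ≤ C * 2^i) {J K : ℕ} (hJK : ((K:ℝ) + 1) ^ (γ + 1) ≤ 2^J) :
    Good n p (fun k => ENNReal.ofReal (sR n γ J K k))
      (fun k => ENNReal.ofReal (sR n γ J K k ^ (1 - p)))
      (ENNReal.ofReal (2 * 2^n * C)) 5 (ENNReal.ofReal (((2:ℝ)^J) ^ (p - 1))) K := by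
  have hp1 : 0 < p - 1 := by linarith
  have hγ0 : 0 ≤ γ := by rw [hγ]; positivity
  refine ⟨fun k => ?_, fun j k hjk => ?_, ?_, fun k => ?_, fun k => ?_, ?_⟩
  · have := sR_pos (n := n) (γ := γ) (J := J) (K := K) k
    rw [ENNReal.ofReal_rpow_of_pos this, ← ENNReal.ofReal_mul (by positivity),
      ← Real.rpow_add this]
    simp
  · rw [← ENNReal.ofReal_mul (by positivity)]
    exact ENNReal.ofReal_le_ofReal (sR_h1 hn hγ0 hC1 hC j k hjk)
  · have h := ENNReal.ofReal_le_ofReal (sR_h2 (n := n) hn hγ0 hJK)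
    rw [ENNReal.ofReal_sum_of_nonneg (fun k _ => by have := sR_pos (n := n) (γ := γ) (J := J) (K := K) k; positivity)] at h
    simp only [ENNReal.ofReal_ofNat] at h
    refine le_trans (le_of_eq ?_) h
    apply Finset.sum_congr rfl
    intro k _
    rw [ENNReal.ofReal_mul (sR_pos k).le, ofReal_two_pow]
  · have h := ENNReal.ofReal_le_ofReal (sR_h3 (n := n) (γ := γ) (J := J) (K := K) k)
    rwa [ENNReal.ofReal_mul (sR_pos k).le, ofReal_two_pow, ENNReal.ofReal_one] at h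
  · have h := ENNReal.ofReal_le_ofReal (sR_h4 (n := n) (J := J) (K := K) hp hγ k)
    have := sR_pos (n := n) (γ := γ) (J := J) (K := K) k
    rwa [ENNReal.ofReal_mul (by positivity), ENNReal.ofReal_mul (by positivity), ofReal_nat_succ,
      ← ENNReal.ofReal_rpow_of_pos (x := (2:ℝ)^(n*k)) (by positivity), ofReal_two_pow] at h
  · have h := ENNReal.ofReal_le_ofReal (sR_h5 hp hγ hJK)
    rwa [ofReal_nat_succ] at h

lemma locallyIntegrable_of_bounded {g : ℕ → ℝ} {M : ℝ} (hg : ∀ k, ‖g k‖ ≤ M) :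
    LocallyIntegrable (fun x : Fin n → ℝ => g (lev x)) volume := by
  have hm : Measurable (fun x : Fin n → ℝ => g (lev x)) :=
    (measurable_from_nat (f := g)).comp measurable_lev
  rw [locallyIntegrable_iff]
  intro k hk
  exact Measure.integrableOn_of_bounded (M := M) hk.measure_lt_top.ne hm.aestronglyMeasurable
    (Eventually.of_forall fun x => hg _)

/-- For every bound there is a weight whose ratio exceeds it. -/
lemma exists_weight (hn : 1 ≤ n) {p p' : ℝ} (hp : 1 < p) (hp' : p' = p / (p - 1)) (m : ℕ) :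
    ∃ w : (Fin n → ℝ) → ℝ, ((∀ x, 0 < w x) ∧ Measurable w ∧ LocallyIntegrable w volume ∧
      AqConst p (fun x => ENNReal.ofReal (w x)) < ⊤ ∧
      0 < mixedConst p' (1 / p') (1 / p) (fun x => ENNReal.ofReal (w x) ^ (1 - p')) ∧
      mixedConst p' (1 / p') (1 / p) (fun x => ENNReal.ofReal (w x) ^ (1 - p')) < ⊤) ∧
      (m : ℝ≥0∞) ≤ maxNorm p (fun x => ENNReal.ofReal (w x)) /
        mixedConst p' (1 / p') (1 / p) (fun x => ENNReal.ofReal (w x) ^ (1 - p')) := by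
  have hp0 : 0 < p := by linarith
  have hp1 : 0 < p - 1 := by linarith
  set γ : ℝ := 1 / (p - 1) with hγ
  have hγ0 : 0 ≤ γ := by positivity
  obtain ⟨C, hC1, hC⟩ := exists_poly_le_exp hγ0
  set D : ℝ≥0∞ := ENNReal.ofReal (2 * 2^n * C) with hD
  have hcst : cst n p D 5 ≠ ⊤ := cst_ne_top hp ENNReal.ofReal_ne_top (by simp)
  obtain ⟨J, N, hJ1, hJK, hB⟩ := exists_params hγ0 ((cst n p D 5).toReal * 2^n * (m:ℝ) ^ p)
  set K := N + J with hK
  have hG := good_sR hn hp hγ hC1 hC hJK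
  set s : ℕ → ℝ≥0∞ := fun k => ENNReal.ofReal (sR n γ J K k) with hs
  set u : ℕ → ℝ≥0∞ := fun k => ENNReal.ofReal (sR n γ J K k ^ (1 - p)) with hu
  set W : ℝ≥0∞ := ENNReal.ofReal (((2:ℝ)^J) ^ (p - 1)) with hW
  have hW0 : W ≠ 0 := by
    rw [hW]; simp only [ne_eq, ENNReal.ofReal_eq_zero, not_le]; positivity
  have hWt : W ≠ ⊤ := ENNReal.ofReal_ne_top
  have hus' : ∀ k, u k = s k ^ (1 - p) := fun k => by
    simp only [hu, hs]; rw [ENNReal.ofReal_rpow_of_pos (sR_pos k)]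
  have hus1 : ∀ k, u k ^ (1 - p') = s k := fun k => by
    rw [hus', ← ENNReal.rpow_mul]
    have : (1 - p) * (1 - p') = 1 := by rw [hp']; field_simp; ring
    rw [this, ENNReal.rpow_one]
  have hus2 : ∀ k, u k ^ (-1 / (p - 1)) = s k := fun k => by
    rw [hus', ← ENNReal.rpow_mul]
    have : (1 - p) * (-1 / (p - 1)) = 1 := by field_simp; ring
    rw [this, ENNReal.rpow_one]
  have hus3 : ∀ k, s k ^ (-1 / (p' - 1)) = u k := fun k => by
    rw [hus']
    congr 1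
    have : p' - 1 = 1 / (p - 1) := by rw [hp']; field_simp; ring
    rw [this]; field_simp; ring
  have hs0 : s 0 = 1 := by simp only [hs]; rw [sR_zero]; simp
  have hu0 : u 0 = 1 := by rw [hus', hs0]; simp
  have hσ : (fun x : Fin n → ℝ => ENNReal.ofReal (sR n γ J K (lev x) ^ (1 - p)) ^ (1 - p')) =
      fun x => s (lev x) := funext fun x => hus1 (lev x)
  have hmix := hG.mixed_le hp hp' hus3
  have hmix1 : 1 ≤ mixedConst p' (1 / p') (1 / p) (fun x : Fin n → ℝ => s (lev x)) :=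
    one_le_mixed (by positivity) hs0
  have hfin : (cst n p D 5 * W) ^ (1 / p) < ⊤ :=
    ENNReal.rpow_lt_top_of_nonneg (by positivity) (ENNReal.mul_ne_top hcst hWt)
  refine ⟨fun x => sR n γ J K (lev x) ^ (1 - p), ⟨fun x => Real.rpow_pos_of_pos (sR_pos _) _,
    (measurable_from_nat (f := fun k => sR n γ J K k ^ (1 - p))).comp measurable_lev, ?_, ?_, ?_, ?_⟩,
    ?_⟩
  · apply locallyIntegrable_of_bounded (g := fun k => sR n γ J K k ^ (1 - p))
      (M := (((2:ℝ)^(n*K))⁻¹) ^ (1 - p))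
    intro k
    rw [Real.norm_eq_abs, abs_of_pos (Real.rpow_pos_of_pos (sR_pos _) _)]
    apply Real.rpow_le_rpow_of_nonpos (by positivity) _ (by linarith)
    exact le_trans (le_max_right _ _) (le_max_right _ _)
  · exact lt_of_le_of_lt (hG.Ap_le hp hus2) (ENNReal.mul_ne_top hcst hWt).lt_top
  · rw [hσ]; exact lt_of_lt_of_le zero_lt_one hmix1
  · rw [hσ]; exact lt_of_le_of_lt hmix hfin
  · rw [hσ]
    have hlow := le_maxNorm (n := n) hn hp hu0 (W := W) (Finset.Ico J N)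
      (fun k hk => hJ1.trans (Finset.mem_Ico.1 hk).1) (fun k hk => by
        have h1 := Finset.mem_Ico.1 hk
        have h2 := congrArg ENNReal.ofReal
          (sR_h6 (n := n) (J := J) (K := K) hn hp hγ h1.1 (by omega))
        have := sR_pos (n := n) (γ := γ) (J := J) (K := K) k
        rw [ENNReal.ofReal_mul (by positivity), ENNReal.ofReal_mul (by positivity), ofReal_nat_succ,
          ← ENNReal.ofReal_rpow_of_pos (x := (2:ℝ)^(n*k)) (by positivity), ofReal_two_pow] at h2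
        exact h2.le)
    rw [ENNReal.le_div_iff_mul_le (Or.inl (lt_of_lt_of_le zero_lt_one hmix1).ne')
      (Or.inl (lt_of_le_of_lt hmix hfin).ne)]
    refine le_trans (mul_le_mul_right hmix _) (le_trans ?_ hlow)
    have hm : (m:ℝ≥0∞) = ((m:ℝ≥0∞) ^ p) ^ (1 / p) := by
      rw [← ENNReal.rpow_mul, mul_one_div_cancel hp0.ne', ENNReal.rpow_one]
    rw [hm, ← ENNReal.mul_rpow_of_nonneg _ _ (by positivity)]
    apply ENNReal.rpow_le_rpow _ (by positivity)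
    have hB' : cst n p D 5 * 2^n * (m:ℝ≥0∞) ^ p ≤ ∑ k ∈ Finset.Ico J N, ((k:ℝ≥0∞) + 1)⁻¹ := by
      have h := ENNReal.ofReal_le_ofReal hB
      rw [ENNReal.ofReal_sum_of_nonneg (fun k _ => by positivity),
        ENNReal.ofReal_mul (by positivity), ENNReal.ofReal_mul (by positivity),
        ENNReal.ofReal_toReal hcst, ofReal_two_pow,
        ← ENNReal.ofReal_rpow_of_nonneg (by positivity) hp0.le, ENNReal.ofReal_natCast] at h
      refine h.trans (le_of_eq ?_)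
      apply Finset.sum_congr rfl
      intro k _
      rw [ENNReal.ofReal_inv_of_pos (by positivity), ofReal_nat_succ]
    calc (m:ℝ≥0∞) ^ p * (cst n p D 5 * W)
        = (m:ℝ≥0∞) ^ p * (cst n p D 5 * W) * (((2:ℝ≥0∞)^n)⁻¹ * 2^n) := by
          rw [ENNReal.inv_mul_cancel (T_ne_zero _) (T_ne_top _), mul_one]
      _ = ((2:ℝ≥0∞)^n)⁻¹ * W * (cst n p D 5 * 2^n * (m:ℝ≥0∞) ^ p) := by ring
      _ ≤ _ := mul_le_mul_right hB' _

theorem main (n : ℕ) (hn : 1 ≤ n) (p p' : ℝ) (hp : 1 < p) (hp' : p' = p / (p - 1)) :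
    ∃ w : ℕ → (Fin n → ℝ) → ℝ,
      (∀ k, (∀ x, 0 < w k x) ∧ Measurable (w k) ∧ LocallyIntegrable (w k) volume ∧
        AqConst p (fun x => ENNReal.ofReal (w k x)) < ⊤ ∧
        0 < mixedConst p' (1 / p') (1 / p) (fun x => ENNReal.ofReal (w k x) ^ (1 - p')) ∧
        mixedConst p' (1 / p') (1 / p) (fun x => ENNReal.ofReal (w k x) ^ (1 - p')) < ⊤) ∧
      Tendsto (fun k => maxNorm p (fun x => ENNReal.ofReal (w k x)) /
        mixedConst p' (1 / p') (1 / p) (fun x => ENNReal.ofReal (w k x) ^ (1 - p')))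
        atTop (𝓝 ⊤) := by
  choose w hw1 hw2 using exists_weight hn hp hp'
  exact ⟨w, hw1, tendsto_nhds_top_mono' ENNReal.tendsto_nat_nhds_top hw2⟩

end Pool.Agent.P.MP_2c43e6_an
end
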